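import Pool.Agent.Y203.HN.Main

/-!
# Weighted equidistribution of saddle points fails for every complex Henon map with a sink or source

For EVERY complex Henon map (all compositions, all degrees) with an attracting or repelling cycle,
and for every Hölder weight that is higher on the cycle than on the rest of the bounded orbits by
more than a constant `H` of the map, the uniform distribution on the cycle is the unique
equilibrium state and the weighted saddle measures do not converge to it.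
-/

set_option autoImplicit false

open MeasureTheory Filter Topology

namespace Pool.Agent.Results.MP_636246_an.EveryMapWithASink

open Pool.Agent.Helper179.KS Pool.Agent.Helper179.Eq Pool.Agent.Results.MP_636246_an.SinkSaddles
open Pool.Agent.Y203.HN

/-- Q1 fails for the map `f` and the weight `φ`: the weight is Hölder continuous, it has exactly one
equilibrium state `μ`, and the weighted saddle measures do not converge weakly to `μ`. -/
def Fails (f : ℂ × ℂ → ℂ × ℂ) (φ : ℂ × ℂ → ℝ) : Prop :=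
  IsHolder φ ∧ ∃ μ : Measure (ℂ × ℂ), IsEquilibriumState f φ μ ∧
    (∀ ν : Measure (ℂ × ℂ), IsEquilibriumState f φ ν → ν = μ) ∧
    ¬ ConvergesWeakly (saddleMeasure f φ) μ

/-- The saddle measures do not see the neighbourhood `U` of the cycle. -/
lemma not_converges {f : ℂ × ℂ → ℂ × ℂ} {m : ℕ} {p : ℂ × ℂ} {K U : Set (ℂ × ℂ)} {H : ℝ}
    (D : CycleData f m p K U H) (hU : ∀ n, ∀ z ∈ U, z ∉ saddlePoints f n) (φ : ℂ × ℂ → ℝ) :
    ¬ ConvergesWeakly (saddleMeasure f φ) (cyc f m p) := by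
  intro hconv
  obtain ⟨ρ, hρ, hb0, hbc⟩ := D.exists_bump
  have h1 := hconv (bump (orb f p) ρ) (bump_continuous _ _) hbc
  simp only [integral_saddle hU (bump_continuous _ _) hb0 φ] at h1
  rw [integral_cyc] at h1
  have h2 := avg_bump (f := f) (p := p) D.mpos ρ 1
  simp only [one_mul] at h2
  change avg f m p (bump (orb f p) ρ) = 1 at h2
  rw [h2] at h1
  have h3 := tendsto_nhds_unique h1 tendsto_const_nhds
  norm_num at h3

/-- Hölder weights are continuous. -/
lemma holder_continuous {φ : ℂ × ℂ → ℝ} (h : IsHolder φ) : Continuous φ := by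
  obtain ⟨α, C, hα, _, hC⟩ := h
  rw [continuous_iff_continuousAt]
  intro w
  rw [ContinuousAt, tendsto_iff_dist_tendsto_zero]
  have h1 : Continuous fun z : ℂ × ℂ =>
      C * (Real.sqrt (‖z.1 - w.1‖ ^ 2 + ‖z.2 - w.2‖ ^ 2)) ^ α := by
    apply continuous_const.mul
    apply Continuous.rpow_const _ (fun _ => Or.inr hα.le)
    fun_prop
  have h2 := h1.tendsto w
  have h3 : C * (Real.sqrt (‖w.1 - w.1‖ ^ 2 + ‖w.2 - w.2‖ ^ 2)) ^ α = 0 := by
    simp [Real.zero_rpow hα.ne']
  simp only [h3] at h2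
  exact squeeze_zero (fun _ => dist_nonneg) (fun z => hC z w) h2

lemma min_one_le_rpow {x α : ℝ} (hx : 0 ≤ x) (hα : 0 < α) (hα1 : α ≤ 1) : min 1 x ≤ x ^ α := by
  rcases le_total x 1 with h | h
  · rcases hx.eq_or_lt with rfl | hx0
    · simp [Real.zero_rpow hα.ne']
    · rw [min_eq_right h]
      calc x = x ^ (1 : ℝ) := (Real.rpow_one x).symm
        _ ≤ x ^ α := Real.rpow_le_rpow_of_exponent_ge hx0 h hα1
  · rw [min_eq_left h]
    exact Real.one_le_rpow h hα.le

/-- Hölder weights plus multiples of a bump are Hölder continuous. -/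
lemma holder_add_bump {ψ : ℂ × ℂ → ℝ} (hψ : IsHolder ψ) (O : Set (ℂ × ℂ)) {ρ : ℝ} (hρ : 0 < ρ)
    (t : ℝ) : IsHolder (fun z => ψ z + t * bump O ρ z) := by
  obtain ⟨α, C, hα, hα1, hC⟩ := hψ
  refine ⟨α, C + |t| * (1 + ρ⁻¹), hα, hα1, ?_⟩
  intro z w
  set e := Real.sqrt (‖z.1 - w.1‖ ^ 2 + ‖z.2 - w.2‖ ^ 2) with he
  have he0 : 0 ≤ e := Real.sqrt_nonneg _
  have h1 := hC z w
  rw [← he] at h1
  have h2 := abs_bump_sub_le O hρ z w
  have h3 : ‖z - w‖ ≤ e := by
    have h := norm_le_euclid (z - w)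
    simpa only [Prod.fst_sub, Prod.snd_sub] using h
  have h4 : 0 < ρ⁻¹ := inv_pos.2 hρ
  have h5 : |bump O ρ z - bump O ρ w| ≤ 1 := by
    have := bump_nonneg O ρ z
    have := bump_nonneg O ρ w
    have := bump_le_one O hρ z
    have := bump_le_one O hρ w
    rw [abs_le]
    constructor <;> linarith
  have h6 : |bump O ρ z - bump O ρ w| ≤ (1 + ρ⁻¹) * min 1 e := by
    rcases le_total e 1 with h | h
    · rw [min_eq_right h]
      have : ρ⁻¹ * ‖z - w‖ ≤ ρ⁻¹ * e := mul_le_mul_of_nonneg_left h3 h4.le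
      nlinarith
    · rw [min_eq_left h]
      linarith
  have h7 := min_one_le_rpow he0 hα hα1
  calc |ψ z + t * bump O ρ z - (ψ w + t * bump O ρ w)|
      = |(ψ z - ψ w) + t * (bump O ρ z - bump O ρ w)| := by
        congr 1; ring
    _ ≤ |ψ z - ψ w| + |t * (bump O ρ z - bump O ρ w)| := abs_add_le _ _
    _ ≤ C * e ^ α + |t| * ((1 + ρ⁻¹) * e ^ α) := by
        rw [abs_mul]
        refine add_le_add h1 (mul_le_mul_of_nonneg_left ?_ (abs_nonneg t))
        exact h6.trans (mul_le_mul_of_nonneg_left h7 (by linarith))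
    _ = _ := by ring

/-- **Every complex Henon map with an attracting or repelling cycle violates the weighted
equidistribution of saddle points**, for all Hölder weights with a high peak at the cycle. -/
theorem result :
    (∀ f : ℂ × ℂ → ℂ × ℂ, IsComplexHenon f → ∀ (m : ℕ) (p : ℂ × ℂ), (Att f m p ∨ Rep f m p) →
      ∃ (H : ℝ) (U : Set (ℂ × ℂ)) (b : ℂ × ℂ → ℝ),
        0 ≤ H ∧ IsOpen U ∧ orb f p ⊆ U ∧ (∀ n : ℕ, ∀ z ∈ U, z ∉ saddlePoints f n) ∧
        (∀ φ : ℂ × ℂ → ℝ, IsHolder φ →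
          (∀ z ∈ boundedOrbits f, z ∉ U → φ z + H < avg f m p φ) →
            pressure f φ = ((avg f m p φ : ℝ) : EReal) ∧
            IsEquilibriumState f φ (cyc f m p) ∧
            (∀ ν : Measure (ℂ × ℂ), IsEquilibriumState f φ ν → ν = cyc f m p) ∧
            ¬ ConvergesWeakly (saddleMeasure f φ) (cyc f m p)) ∧
        (HasCompactSupport b ∧ (∀ z, 0 ≤ b z ∧ b z ≤ 1) ∧ (∀ z ∉ U, b z = 0) ∧
          (∀ z ∈ orb f p, b z = 1) ∧
          (∀ t : ℝ, H < t → Fails f (fun z => t * b z)) ∧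
          ∀ ψ : ℂ × ℂ → ℝ, IsHolder ψ →
            ∃ t₀ : ℝ, ∀ t : ℝ, t₀ < t → Fails f (fun z => ψ z + t * b z))) ∧
    (∀ (P : Polynomial ℂ) (a y : ℂ), 2 ≤ P.natDegree → a ≠ 0 → P.eval y = (1 + a) * y →
      (‖P.derivative.eval y‖ + ‖a‖ < 1 ∨ ‖P.derivative.eval y‖ + 1 < ‖a‖) →
        ∃ φ : ℂ × ℂ → ℝ, HasCompactSupport φ ∧ Fails (elementaryHenon P a) φ) ∧
    (∀ (d : ℕ) (a : ℂ), 2 ≤ d → a ≠ 0 → ‖a‖ ≠ 1 →
        ∃ φ : ℂ × ℂ → ℝ, HasCompactSupport φ ∧ Fails (elementaryHenon (Polynomial.X ^ d) a) φ) := by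
  have main : ∀ f : ℂ × ℂ → ℂ × ℂ, IsComplexHenon f → ∀ (m : ℕ) (p : ℂ × ℂ),
      (Att f m p ∨ Rep f m p) →
      ∃ (H : ℝ) (U : Set (ℂ × ℂ)) (b : ℂ × ℂ → ℝ),
        0 ≤ H ∧ IsOpen U ∧ orb f p ⊆ U ∧ (∀ n : ℕ, ∀ z ∈ U, z ∉ saddlePoints f n) ∧
        (∀ φ : ℂ × ℂ → ℝ, IsHolder φ →
          (∀ z ∈ boundedOrbits f, z ∉ U → φ z + H < avg f m p φ) →
            pressure f φ = ((avg f m p φ : ℝ) : EReal) ∧
            IsEquilibriumState f φ (cyc f m p) ∧
            (∀ ν : Measure (ℂ × ℂ), IsEquilibriumState f φ ν → ν = cyc f m p) ∧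
            ¬ ConvergesWeakly (saddleMeasure f φ) (cyc f m p)) ∧
        (HasCompactSupport b ∧ (∀ z, 0 ≤ b z ∧ b z ≤ 1) ∧ (∀ z ∉ U, b z = 0) ∧
          (∀ z ∈ orb f p, b z = 1) ∧
          (∀ t : ℝ, H < t → Fails f (fun z => t * b z)) ∧
          ∀ ψ : ℂ × ℂ → ℝ, IsHolder ψ →
            ∃ t₀ : ℝ, ∀ t : ℝ, t₀ < t → Fails f (fun z => ψ z + t * b z)) := by
    intro f hf m p hap
    obtain ⟨g, G⟩ := exists_good hf
    obtain ⟨R, H, U, D, hU⟩ := exists_data G hap
    obtain ⟨ρ, hρ, hb0, hbc⟩ := D.exists_bump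
    have key : ∀ φ : ℂ × ℂ → ℝ, IsHolder φ →
        (∀ z ∈ KK f g R, z ∉ U → φ z + H < avg f m p φ) →
            pressure f φ = ((avg f m p φ : ℝ) : EReal) ∧
            IsEquilibriumState f φ (cyc f m p) ∧
            (∀ ν : Measure (ℂ × ℂ), IsEquilibriumState f φ ν → ν = cyc f m p) ∧
            ¬ ConvergesWeakly (saddleMeasure f φ) (cyc f m p) := by
      intro φ hφ hhigh
      obtain ⟨h1, h2, h3⟩ := D.unique_of_high (holder_continuous hφ) hhigh
      exact ⟨h1, h2, h3, not_converges D hU φ⟩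
    refine ⟨H, U, bump (orb f p) ρ, D.Hnn, D.openU, ?_, hU, ?_, hbc,
      fun z => ⟨bump_nonneg _ _ _, bump_le_one _ hρ _⟩, hb0, fun z hz => bump_mem hz, ?_, ?_⟩
    · rintro _ ⟨i, rfl⟩
      exact D.mem i
    · intro φ hφ hhigh
      exact key φ hφ (fun z hz hzU => hhigh z (KK_subset G R hz) hzU)
    · intro t ht
      have hH := isHolder_bump (orb f p) hρ t
      refine ⟨hH, cyc f m p, (key _ hH ?_).2⟩
      intro z _ hzU
      rw [avg_bump D.mpos, hb0 z hzU]
      linarith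
    · intro ψ hψ
      have hadd : ∀ t : ℝ, avg f m p (fun z => ψ z + t * bump (orb f p) ρ z) =
          avg f m p ψ + t := by
        intro t
        have h1 := avg_bump (f := f) (p := p) D.mpos ρ t
        unfold avg at h1 ⊢
        rw [Finset.sum_add_distrib, add_div, h1]
      have hhol : ∀ t : ℝ, IsHolder (fun z => ψ z + t * bump (orb f p) ρ z) :=
        fun t => holder_add_bump hψ (orb f p) hρ t
      have hc : Continuous ψ := holder_continuous hψ
      obtain ⟨C, hC⟩ := (D.cpt.bddAbove_image hc.continuousOn)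
      refine ⟨C + H - avg f m p ψ, ?_⟩
      intro t ht
      refine ⟨hhol t, cyc f m p, (key _ (hhol t) ?_).2⟩
      intro z hz hzU
      rw [hadd t, hb0 z hzU]
      have : ψ z ≤ C := hC ⟨z, hz, rfl⟩
      linarith
  have elem : ∀ (P : Polynomial ℂ) (a y : ℂ), 2 ≤ P.natDegree → a ≠ 0 →
      P.eval y = (1 + a) * y →
      (‖P.derivative.eval y‖ + ‖a‖ < 1 ∨ ‖P.derivative.eval y‖ + 1 < ‖a‖) →
        ∃ φ : ℂ × ℂ → ℝ, HasCompactSupport φ ∧ Fails (elementaryHenon P a) φ := by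
    intro P a y hP ha hy h
    have hap : Att (elementaryHenon P a) 1 (y, y) ∨ Rep (elementaryHenon P a) 1 (y, y) := by
      rcases h with h | h
      · exact Or.inl (att_elementary P a y hy h)
      · exact Or.inr (rep_elementary P a y hy h)
    obtain ⟨H, U, b, _, _, _, _, _, hbc, _, _, _, hF, _⟩ :=
      main _ (IsComplexHenon.elementary P a hP ha) 1 (y, y) hap
    exact ⟨fun z => (H + 1) * b z, hbc.mul_left, hF (H + 1) (lt_add_one H)⟩
  refine ⟨main, elem, ?_⟩
  intro d a hd ha ha1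
  have hd' : 2 ≤ (Polynomial.X ^ d : Polynomial ℂ).natDegree := by
    rw [Polynomial.natDegree_X_pow]; exact hd
  refine elem (Polynomial.X ^ d) a 0 hd' ha ?_ ?_
  · have h1 : d ≠ 0 := by omega
    rw [Polynomial.eval_pow, Polynomial.eval_X, zero_pow h1, mul_zero]
  · have h0 : (Polynomial.derivative (Polynomial.X ^ d : Polynomial ℂ)).eval 0 = 0 := by
      have h1 : d - 1 ≠ 0 := by omega
      rw [Polynomial.derivative_X_pow, Polynomial.eval_mul, Polynomial.eval_pow,
        Polynomial.eval_X, zero_pow h1, mul_zero]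
    rw [h0, norm_zero, zero_add, zero_add]
    exact lt_or_gt_of_ne ha1

end Pool.Agent.Results.MP_636246_an.EveryMapWithASink
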